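import Pool.Agent.Helper2_Pak.StmtsK

/-!
# PAK1 modules K5, K6: the positions of the tiles, the tops of the columns
-/

set_option autoImplicit false

namespace Pool.Agent.Helper2_Pak.H88

open Pool.Agent.Helper2_Pak

theorem sp_odd {k : Kind} {j : ℕ} (h : k.sp j = true) : j % 2 = 1 := by
  cases k <;> simp [Kind.sp] at h <;> omega

theorem spc_odd {G : Lay} {c r : ℕ} (h : G.spc c r = true) : r % 2 = 1 := by
  unfold Lay.spc at h
  split at h
  · simp at h
    exact h.1
  · rename_i h1
    have h2 := sp_odd h
    unfold Lay.N at h1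
    omega

theorem spc_even {G : Lay} {c r : ℕ} (h : r % 2 = 0) : G.spc c r = false := by
  by_contra h1
  rw [Bool.not_eq_false] at h1
  have := spc_odd h1
  omega

theorem pen_even {G : Lay} {c r : ℕ} (h : r % 2 = 0) : G.pen c r = false := by
  unfold Lay.pen
  rw [spc_even h, spc_even h]
  simp

theorem dr_even {G : Lay} {c r : ℕ} (h : r % 2 = 0) : G.dr c r = (0, 0) := by
  induction c with
  | zero => rfl
  | succ c ih =>
    rw [Lay.dr, ih, spc_even h, pen_even h]
    simp

theorem D_even {G : Lay} (t : ℝ) {c r : ℕ} (h : r % 2 = 0) : G.D t c r = 0 := by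
  unfold Lay.D
  rw [dr_even h]
  simp

theorem ori_eq (G : Lay) (c r : ℕ) : G.ori c r =
    (if (G.kd c).isW then 2 else 0) + (if G.spc c r then 1 else 0) := rfl

theorem ori_lt (G : Lay) (c r : ℕ) : G.ori c r < 4 := by
  rw [ori_eq]
  split <;> split <;> omega

theorem ori_mod (G : Lay) (c r : ℕ) : G.ori c r % 2 = if G.spc c r then 1 else 0 := by
  rw [ori_eq]
  split <;> split <;> rfl

theorem HX_ori (t : ℝ) (G : Lay) (c r : ℕ) :
    HX t (G.ori c r) = 1 / 2 + if G.spc c r then t ^ 2 / 2 else 0 := by
  unfold HX
  rw [ori_mod]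
  by_cases h : G.spc c r = true
  · simp [h, hh]; ring
  · simp [h]

theorem HY_ori (t : ℝ) (G : Lay) (c r : ℕ) :
    HY t (G.ori c r) = 1 / 2 + if G.spc c r then 0 else t ^ 2 / 2 := by
  unfold HY
  rw [ori_mod]
  by_cases h : G.spc c r = true
  · simp [h]
  · simp [h, hh]; ring

theorem ctr_re (G : Lay) (t : ℝ) (x : ℕ → ℕ → ℝ) (c r : ℕ) :
    (G.ctr t x c r).re = c + G.D t c r + x c r + HX t (G.ori c r) := rfl

theorem ctr_im (G : Lay) (t : ℝ) (x : ℕ → ℕ → ℝ) (c r : ℕ) :
    (G.ctr t x c r).im = G.bot t x c r + HY t (G.ori c r) := rfl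

theorem pres_iff {G : Lay} {c r : ℕ} : G.pres c r = true ↔ c < G.M ∧ r < G.top c := by
  unfold Lay.pres
  simp

theorem D_succ {G : Lay} (t : ℝ) {c r : ℕ} (h : G.pres c r = true) :
    G.D t (c + 1) r = G.D t c r + (if G.spc c r then t ^ 2 else 0) +
      (if G.pres (c + 1) r && G.pen c r then t ^ 3 else 0) := by
  unfold Lay.D
  rw [Lay.dr, if_pos h]
  dsimp only
  push_cast
  split <;> split <;> ring

theorem D_wall {G : Lay} (t : ℝ) {c r : ℕ} (h : G.pres c r = false) : G.D t (c + 1) r = 0 := by
  unfold Lay.D
  rw [Lay.dr, if_neg (by simp [h])]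
  simp

theorem D_zero {G : Lay} (t : ℝ) (r : ℕ) : G.D t 0 r = 0 := by
  unfold Lay.D
  rw [Lay.dr]
  simp

/-- a sum of displacements -/
theorem sum_cH (G : Lay) (t : ℝ) (x : ℕ → ℕ → ℝ) (c m : ℕ) :
    ∑ j ∈ Finset.range m, G.cH t x c j = (∑ j ∈ Finset.range m, G.nh t c j) +
      G.sg c * t ^ 4 * ∑ r ∈ (Finset.range m).filter (fun r => G.spc c r = true), x c r := by
  unfold Lay.cH
  rw [Finset.sum_add_distrib, Finset.sum_filter, Finset.mul_sum]
  congr 1
  refine Finset.sum_congr rfl fun j _ => ?_
  by_cases h : G.spc c j = true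
  · simp [h]; ring
  · simp [h]

theorem blank_spc {G : Lay} (hG : G.OK) {c r : ℕ} (h : G.kd c = .bW ∨ G.kd c = .bV) :
    G.spc c r = false := by
  have hl : G.l c = 0 := hG.blank c (by tauto)
  unfold Lay.spc
  split
  · simp [hl]
  · rcases h with h | h <;> rw [h] <;> rfl

theorem k5 (h1 : G1Stmt) : K5Stmt := by
  intro t G x hG hs hx
  obtain ⟨ht, hKt, hK, hD, hfc, hsum⟩ := h1 t G hG hs
  have t0 := hs.pos
  have ht' : t ≤ 1 / 1000 := ht.trans (by norm_num)
  have p2 : t ^ 2 ≤ t / 1000 := by nlinarith only [t0, ht]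
  have p3 : t ^ 3 ≤ t / 1000 := by nlinarith only [t0, ht, mul_pos t0 t0]
  have p4 : t ^ 4 ≤ t / 1000 := by nlinarith only [t0, ht, mul_pos t0 t0, mul_pos (mul_pos t0 t0) t0]
  have q2 : 0 < t ^ 2 := by positivity
  have q3 : 0 < t ^ 3 := by positivity
  have q4 : 0 < t ^ 4 := by positivity
  refine ⟨?_, ?_, ?_, ?_, ?_, ?_, ?_⟩
  · -- the bounds
    intro c r hp
    obtain ⟨hc, hr⟩ := pres_iff.1 hp
    obtain ⟨d0, d1, -, -⟩ := hD c r
    have hxb := abs_le.1 (hx.bound c r)
    refine ⟨?_, ?_, ori_lt G c r⟩
    · rw [ctr_re, HX_ori, abs_le]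
      have e : (0 : ℝ) ≤ (if G.spc c r then t ^ 2 / 2 else 0) ∧
          (if G.spc c r then t ^ 2 / 2 else (0 : ℝ)) ≤ t ^ 2 := by
        split <;> constructor <;> linarith only [q2]
      constructor <;> linarith only [p3, d0, p2, d1, hxb.1, hxb.2, e.1, e.2]
    · rw [ctr_im, HY_ori, abs_le]
      have e : (0 : ℝ) ≤ (if G.spc c r then 0 else t ^ 2 / 2) ∧
          (if G.spc c r then 0 else t ^ 2 / 2 : ℝ) ≤ t ^ 2 := by
        split <;> constructor <;> linarith only [q2]
      obtain ⟨f0, f1⟩ := abs_le.1 (hfc c hc).1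
      obtain ⟨s0, s1⟩ := abs_le.1 (hsum c r hc hr.le)
      unfold Lay.bot
      rw [sum_cH]
      have hsh : (0 : ℝ) ≤ (if G.spc c r && !(G.kd c).isW then
            t ^ 4 + t ^ 4 * (G.D t c r + t ^ 2 / 2 + x c r) else 0) ∧
          (if G.spc c r && !(G.kd c).isW then
            t ^ 4 + t ^ 4 * (G.D t c r + t ^ 2 / 2 + x c r) else 0) ≤ 2 * t ^ 4 := by
        split
        · constructor
          · have : -1 ≤ G.D t c r + t ^ 2 / 2 + x c r := by linarith only [ht, p3, q2, d0, hxb.1]
            nlinarith only [q4, hxb, p4, d0]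
          · have : G.D t c r + t ^ 2 / 2 + x c r ≤ 1 := by linarith only [ht, p2, p3, d1, hxb.2]
            nlinarith only [q4, hxb, p2, p4, d1]
        · constructor <;> linarith only [q4]
      have hrow : |(G.sg c : ℝ) * t ^ 4 *
          ∑ r ∈ (Finset.range r).filter (fun r => G.spc c r = true), x c r| ≤ t / 1000 := by
        have hsg : |(G.sg c : ℝ)| = 1 := by
          unfold Lay.sg
          split <;> simp
        rw [abs_mul, abs_mul, hsg, one_mul, abs_of_pos q4]
        have a1 : |∑ r ∈ (Finset.range r).filter (fun r => G.spc c r = true), x c r| ≤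
            r * t ^ 3 := by
          refine (Finset.abs_sum_le_sum_abs _ _).trans ?_
          refine (Finset.sum_le_sum fun j _ => hx.bound c j).trans ?_
          rw [Finset.sum_const, nsmul_eq_mul]
          refine mul_le_mul_of_nonneg_right ?_ q3.le
          have := Finset.card_filter_le (Finset.range r) (fun r => G.spc c r = true)
          rw [Finset.card_range] at this
          exact_mod_cast this
        have a2 : (r : ℝ) ≤ G.K := by
          have b1 : G.top c ≤ G.K := by
            have h : G.top c ≤ ∑ c : Fin G.M, G.top c :=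
              Finset.single_le_sum (f := fun c : Fin G.M => G.top c) (fun _ _ => Nat.zero_le _)
                (Finset.mem_univ (⟨c, hc⟩ : Fin G.M))
            have h' : G.K = (∑ c : Fin G.M, G.top c) +
                Fintype.card {c : Fin G.M // (G.kd c).isL = true} := by
              unfold Lay.K
              rw [Fintype.card_sum, Fintype.card_sigma]
              simp
            omega
          exact_mod_cast hr.le.trans b1
        have a3 : (r : ℝ) * t ^ 3 ≤ 1 := by
          have b1 : (r : ℝ) * t ^ 3 ≤ G.K * t ^ 3 := mul_le_mul_of_nonneg_right a2 q3.le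
          have b2 : (G.K : ℝ) * t ^ 3 = G.K * t * t ^ 2 := by ring
          have b3 : (G.K : ℝ) * t * t ^ 2 ≤ 1 * 1 := by
            refine mul_le_mul (hKt.trans (by norm_num)) ?_ q2.le (by norm_num)
            linarith only [ht, p2]
          linarith only [b1, b3]
        have a4 : t ^ 4 * |∑ r ∈ (Finset.range r).filter (fun r => G.spc c r = true), x c r| ≤
            t ^ 4 * 1 := mul_le_mul_of_nonneg_left (a1.trans a3) q4.le
        linarith only [p4, a4]
      obtain ⟨g0, g1⟩ := abs_le.1 hrow
      constructor <;> linarith only [p2, f0, s0, g0, p4, f1, s1, g1, e.1, e.2, hsh.1, hsh.2]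
  · -- even rows
    intro c r hp he
    rw [ctr_re, HX_ori, D_even t he, hx.even c r he, spc_even he, ori_mod, spc_even he]
    simp
  · -- the bottom
    intro c hc
    unfold Lay.bot
    rw [spc_even (G := G) (c := c) (r := 0) rfl]
    simp
  · -- vertical contacts
    intro c r hp
    have hb : G.bot t x c (r + 1) = G.bot t x c r -
        (if G.spc c r && !(G.kd c).isW then t ^ 4 + t ^ 4 * (G.D t c r + t ^ 2 / 2 + x c r) else 0)
        + G.cH t x c r +
        (if G.spc c (r + 1) && !(G.kd c).isW then
          t ^ 4 + t ^ 4 * (G.D t c (r + 1) + t ^ 2 / 2 + x c (r + 1)) else 0) := by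
      unfold Lay.bot
      rw [Finset.sum_range_succ]
      ring
    rw [ctr_im, ctr_im, ctr_re, ctr_re, hb, HY_ori, HY_ori, HX_ori, HX_ori, ori_eq, ori_eq]
    unfold Lay.cH Lay.nh Lay.sg
    by_cases h0 : G.spc c r = true
    · have hodd := spc_odd h0
      have h1' : G.spc c (r + 1) = false := spc_even (by omega)
      have hD1 : G.D t c (r + 1) = 0 := D_even t (by omega)
      have hx1 : x c (r + 1) = 0 := hx.even c (r + 1) (by omega)
      rw [h0, h1', hD1, hx1]
      cases hW : (G.kd c).isW
      · left
        simp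
        ring
      · right; right
        simp
        ring
    · rw [Bool.not_eq_true] at h0
      cases h1' : G.spc c (r + 1)
      · rw [h0]
        cases hW : (G.kd c).isW
        · left
          simp
          ring
        · left
          simp
          ring
      · have hodd := spc_odd h1'
        have hD0 : G.D t c r = 0 := D_even t (by omega)
        have hx0 : x c r = 0 := hx.even c r (by omega)
        rw [h0, hD0, hx0]
        cases hW : (G.kd c).isW
        · right; left
          simp
          ring
        · left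
          simp
          ring
  · -- horizontal contacts
    intro c r hp hp'
    obtain ⟨hc', -⟩ := pres_iff.1 hp'
    rw [ctr_re, ctr_re, HX_ori, HX_ori, D_succ t hp, hp', hx.row c r hp hp', ori_eq, ori_eq]
    unfold Lay.pen penH pq
    cases hW : (G.kd c).isW <;> cases hW' : (G.kd (c + 1)).isW
    case true.false =>
      obtain ⟨e1, e2⟩ := hG.WV c hW hW' hc'
      have f1 := blank_spc hG (r := r) (Or.inl e1)
      have f2 := blank_spc hG (r := r) (Or.inr e2)
      rw [f1, f2]
      refine ⟨by simp, ?_⟩
      push_cast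
      simp
      ring
    all_goals
      cases h0 : G.spc c r <;> cases h1' : G.spc (c + 1) r
    all_goals
      refine ⟨by simp, ?_⟩
      push_cast
      simp
      try ring
  · -- left walls
    intro X r hw
    have hp : G.pres X r = true := by
      unfold Lay.wallL at hw
      simp at hw
      exact hw.1
    have hD0 : G.D t X r = 0 := by
      unfold Lay.wallL at hw
      simp at hw
      rcases Nat.eq_zero_or_pos X with rfl | hX
      · exact D_zero t r
      · obtain ⟨Y, rfl⟩ : ∃ Y, X = Y + 1 := ⟨X - 1, by omega⟩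
        rcases hw.2 with h | h
        · omega
        · exact D_wall t (by simpa using h)
    constructor
    · rw [ori_eq]
      by_cases h0 : G.spc X r = true
      · rw [hG.wallL X r hw h0, h0]
        simp
      · simp only [h0]
        split <;> simp
    · rw [ctr_re, hD0]
      split
      · have := (abs_le.1 (hx.bound X r)).1
        linarith only [this]
      · rename_i h
        rw [hx.even X r (by omega)]
        linarith
  · -- right walls
    intro X r hw
    have hp : G.pres X r = true ∧ G.pres (X + 1) r = false := by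
      unfold Lay.wallR at hw
      simpa using hw
    constructor
    · rw [ori_eq]
      by_cases h0 : G.spc X r = true
      · rw [hG.wallR X r hw h0, h0]
        simp
      · simp only [h0]
        split <;> simp
    · rw [ctr_re, HX_ori]
      unfold Lay.rw
      rw [D_succ t hp.1, hp.2]
      simp only [Bool.false_and]
      by_cases h : r % 2 = 1
      · rw [if_pos h]
        have := (abs_le.1 (hx.bound X r)).2
        by_cases h0 : G.spc X r = true
        · simp only [h0, if_true]
          norm_num
          linarith only [this]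
        · simp only [h0]
          norm_num
          linarith only [this]
      · have he : r % 2 = 0 := by omega
        rw [if_neg h, hx.even X r he, D_even t he, spc_even he]
        norm_num
        linarith

/-- the top of the last tile of a column -/
theorem bot_top (t : ℝ) (G : Lay) (x : ℕ → ℕ → ℝ) {c : ℕ} (hc : 1 ≤ G.top c) :
    G.bot t x c (G.top c - 1) + 2 * HY t (G.ori c (G.top c - 1)) +
      (if G.spc c (G.top c - 1) && (G.kd c).isW then
        t ^ 4 - t ^ 4 * ((G.ctr t x c (G.top c - 1)).re - (c + 1 / 2)) else 0) =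
    G.fl t c + ∑ j ∈ Finset.range (G.top c), G.cH t x c j := by
  obtain ⟨m, hm⟩ : ∃ m, G.top c = m + 1 := ⟨G.top c - 1, by omega⟩
  rw [hm, Nat.add_sub_cancel, Finset.sum_range_succ, HY_ori, ctr_re, HX_ori]
  unfold Lay.bot
  have e : G.cH t x c m = G.nh t c m + (if G.spc c m then (G.sg c : ℝ) * (t ^ 4 * x c m) else 0) :=
    rfl
  rw [e]
  unfold Lay.nh Lay.sg
  cases hW : (G.kd c).isW <;> cases h0 : G.spc c m
  all_goals
    simp
    try ring

/-- the sum of the heights of a column -/
theorem fl_sum (t : ℝ) (G : Lay) (x : ℕ → ℕ → ℝ) (c : ℕ) :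
    G.fl t c + ∑ j ∈ Finset.range (G.top c), G.cH t x c j =
    G.N + (∑ r ∈ Finset.Ico G.N (G.top c), G.nh t c r) + G.sg c * t ^ 4 *
      ∑ r ∈ (Finset.range (G.top c)).filter (fun r => G.spc c r = true), x c r := by
  rw [sum_cH]
  have e : (∑ r ∈ Finset.range G.N, G.nh t c r) + ∑ r ∈ Finset.Ico G.N (G.top c), G.nh t c r =
      ∑ r ∈ Finset.range (G.top c), G.nh t c r := by
    rw [Finset.range_eq_Ico, Finset.range_eq_Ico]
    exact Finset.sum_Ico_consecutive _ (Nat.zero_le _) (by unfold Lay.top; omega)
  unfold Lay.fl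
  linarith

theorem k6 (h1 : G1Stmt) : K6Stmt := by
  intro t G x hG hs hx
  have htop : ∀ c, 1 ≤ G.top c := by
    intro c
    unfold Lay.top Lay.N
    omega
  have hce : ∀ c, c < G.M → (G.kd c).isL = false → (G.kd c).isR = false →
      G.fl t c + ∑ j ∈ Finset.range (G.top c), G.cH t x c j ≤ G.ce t c := by
    intro c hc hL hR
    rw [fl_sum]
    have := hx.ceil c hc hL hR
    unfold Lay.ce
    rw [hL, hR]
    simp only [Bool.or_self, Bool.false_eq_true, if_false]
    linarith
  refine ⟨?_, ?_, ?_⟩
  · intro c hc hL hR hW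
    have h2 := hce c hc hL hR
    have h3 := bot_top t G x (htop c)
    rw [hW] at h3
    simp only [Bool.and_false, Bool.false_eq_true, if_false, add_zero] at h3
    linarith
  · intro c hc hW
    have hL : (G.kd c).isL = false := by
      cases h : G.kd c <;> rw [h] at hW <;> first | rfl | (simp [Kind.isW] at hW)
    have hR : (G.kd c).isR = false := by
      cases h : G.kd c <;> rw [h] at hW <;> first | rfl | (simp [Kind.isW] at hW)
    have h2 := hce c hc hL hR
    have h3 := bot_top t G x (htop c)
    have h4 := ori_eq G c (G.top c - 1)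
    rw [hW] at h3 h4
    cases h0 : G.spc c (G.top c - 1)
    · rw [h0] at h3 h4
      left
      simp only [Bool.false_and, Bool.false_eq_true, if_false, if_true, add_zero] at h3 h4
      rw [h4] at h3 ⊢
      exact ⟨rfl, by linarith⟩
    · rw [h0] at h3 h4
      right
      simp only [Bool.true_and, if_true] at h3 h4
      norm_num at h4
      rw [h4] at h3 ⊢
      exact ⟨rfl, by linarith⟩
  · intro c hc hLR
    have hW : (G.kd c).isW = false := by
      cases h : G.kd c <;> rw [h] at hLR <;> first | rfl | (simp [Kind.isL, Kind.isR] at hLR)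
    have hh0 : (G.kd c).h = 0 := by
      cases h : G.kd c <;> rw [h] at hLR <;> first | rfl | (simp [Kind.isL, Kind.isR] at hLR)
    have htN : G.top c = G.N := by
      unfold Lay.top
      rw [hh0, add_zero]
    have hev : (G.N - 1) % 2 = 0 := by
      unfold Lay.N
      omega
    have h3 := bot_top t G x (htop c)
    have h4 := ori_eq G c (G.N - 1)
    rw [htN] at h3
    rw [spc_even hev, hW] at h4
    simp only [Bool.false_eq_true, if_false, add_zero] at h4
    refine ⟨h4, ?_⟩
    rw [hW] at h3
    simp only [Bool.and_false, Bool.false_eq_true, if_false, add_zero] at h3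
    rw [h4] at h3
    have h5 := fl_sum t G x c
    rw [htN] at h5
    rw [h5] at h3
    have h6 : G.sg c = 1 := by
      unfold Lay.sg
      rw [hW]
      rfl
    rw [h6, Finset.Ico_self, Finset.sum_empty] at h3
    have h7 : HY t 0 = hh t := rfl
    rw [h7] at h3
    push_cast at h3
    linarith only [h3]

end Pool.Agent.Helper2_Pak.H88
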